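import Pool.Agent.W192.HK.Parts

/-!
Project HK (helper192): power trick for ideals (adaptation of Pool/Agent/W108/CM/COUNT.lean).
-/

set_option autoImplicit false

namespace Pool.Agent.W240.HK

open Finset Pool.Agent.W192.HK

section

variable {R : Subring ℂ}

/-- the ideals up to `y` with `χ ^ k = 1` -/
def SS (χ : Ideal R → ℂ) (k : ℕ) (y : ℝ) : Set (Ideal R) :=
  {I : Ideal R | nm I ≤ y ∧ χ I ≠ 0 ∧ χ I ^ k = 1}

theorem chi_one {c : Ideal R} {χ : Ideal R → ℂ} (h : RC c χ) : χ 1 = 1 := by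
  have h1 : χ 1 ≠ 0 := by
    intro h0
    rcases (h.zero 1).1 h0 with h2 | h2
    · rw [Ideal.one_eq_top] at h2
      exact top_ne_bot h2
    · exact h2 isCoprime_one_left
  have h2 := h.mul 1 1
  rw [mul_one] at h2
  have h3 : χ 1 * (χ 1 - 1) = 0 := by linear_combination -h2
  rcases mul_eq_zero.1 h3 with h4 | h4
  · exact absurd h4 h1
  · exact sub_eq_zero.1 h4

theorem chi_prod {c : Ideal R} {χ : Ideal R → ℂ} (h : RC c χ) {j : ℕ} (f : Fin j → Ideal R) :
    χ (∏ i, f i) = ∏ i, χ (f i) := by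
  classical
  have key : ∀ s : Finset (Fin j), χ (∏ i ∈ s, f i) = ∏ i ∈ s, χ (f i) := by
    intro s
    induction s using Finset.induction_on with
    | empty => rw [prod_empty, prod_empty]; exact chi_one h
    | insert a s ha ih => rw [prod_insert ha, prod_insert ha, h.mul, ih]
  exact key _

theorem nm_nonneg (I : Ideal R) : 0 ≤ nm I := Nat.cast_nonneg _

end

theorem h_count (h1 : H_BASIC) (h2 : H_CNT) (h3 : H_DIVR) : H_COUNT := by
  classical
  intro R ω hR j hj η hη
  have hj0 : (0 : ℝ) < (j : ℝ) := by exact_mod_cast hj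
  obtain ⟨C, hC, hdiv⟩ := h3 R ω hR (η / (j : ℝ) ^ 2) (by positivity)
  obtain ⟨hfinA, -, C₁, hC₁, -, hcnt⟩ := h2 R ω hR
  obtain ⟨-, -, -, hmul, -, -, htop, -, -⟩ := h1 R ω hR
  have nm1 : nm (1 : Ideal R) = 1 := by rw [Ideal.one_eq_top]; exact (htop ⊤).2 rfl
  have nm_prod : ∀ f : Fin j → Ideal R, nm (∏ i, f i) = ∏ i, nm (f i) := by
    intro f
    have key : ∀ s : Finset (Fin j), nm (∏ i ∈ s, f i) = ∏ i ∈ s, nm (f i) := by
      intro s
      induction s using Finset.induction_on with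
      | empty => rw [prod_empty, prod_empty]; exact nm1
      | insert a s ha ih => rw [prod_insert ha, prod_insert ha, hmul, ih]
    exact key _
  refine ⟨C ^ j * C₁, by positivity, ?_⟩
  intro c χ hχ d hd e he y hy
  have hy0 : (0 : ℝ) ≤ y := by linarith
  have hyj : (1 : ℝ) ≤ y ^ j := one_le_pow₀ hy
  have hyj0 : (0 : ℝ) ≤ y ^ j := by positivity
  obtain ⟨k, hk⟩ : ∃ k, k = d / e := ⟨_, rfl⟩
  have hTc0 := (hcnt c χ hχ d hd).2 e he (y ^ j) hyj
  rw [← hk] at hTc0 ⊢
  have hfin : ∀ z : ℝ, (SS χ k z).Finite := by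
    intro z
    refine (hfinA z).subset ?_
    rintro γ ⟨h1, -, -⟩
    exact h1
  have cnt_eq : ∀ z : ℝ, cntI χ k z = (SS χ k z).ncard := fun z => rfl
  rw [cnt_eq, Set.ncard_eq_toFinset_card _ (hfin (y ^ j))] at hTc0
  rw [cnt_eq, Set.ncard_eq_toFinset_card _ (hfin y)]
  obtain ⟨S, hS⟩ : ∃ S, S = (hfin y).toFinset := ⟨_, rfl⟩
  obtain ⟨T, hT⟩ : ∃ T, T = (hfin (y ^ j)).toFinset := ⟨_, rfl⟩
  rw [← hT] at hTc0
  rw [← hS]
  have memS : ∀ γ : Ideal R, γ ∈ S ↔ nm γ ≤ y ∧ χ γ ≠ 0 ∧ χ γ ^ k = 1 := by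
    intro γ
    rw [hS, Set.Finite.mem_toFinset]
    rfl
  have memT : ∀ γ : Ideal R, γ ∈ T ↔ nm γ ≤ y ^ j ∧ χ γ ≠ 0 ∧ χ γ ^ k = 1 := by
    intro γ
    rw [hT, Set.Finite.mem_toFinset]
    rfl
  -- the map
  have hmaps : ∀ f ∈ Fintype.piFinset (fun _ : Fin j => S), (∏ i, f i) ∈ T := by
    intro f hf
    rw [Fintype.mem_piFinset] at hf
    have hf' := fun i => (memS (f i)).mp (hf i)
    rw [memT]
    refine ⟨?_, ?_, ?_⟩
    · rw [nm_prod]
      calc ∏ i, nm (f i) ≤ ∏ _i : Fin j, y :=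
            Finset.prod_le_prod (fun i _ => nm_nonneg _) fun i _ => (hf' i).1
        _ = y ^ j := by rw [Finset.prod_const, Finset.card_univ, Fintype.card_fin]
    · rw [chi_prod hχ]
      exact Finset.prod_ne_zero_iff.mpr fun i _ => (hf' i).2.1
    · rw [chi_prod hχ, ← Finset.prod_pow]
      exact Finset.prod_eq_one fun i _ => (hf' i).2.2
  have hfib : ∀ K ∈ T, (((Fintype.piFinset (fun _ : Fin j => S)).filter
      (fun f => ∏ i, f i = K)).card : ℝ) ≤ C ^ j * y ^ η := by
    intro K hK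
    rw [memT] at hK
    obtain ⟨hK1, hK2, -⟩ := hK
    have hK0 : K ≠ ⊥ := by
      intro h0
      exact hK2 ((hχ.zero K).2 (Or.inl h0))
    obtain ⟨hd1, hd2⟩ := hdiv K hK0
    obtain ⟨D, hDd⟩ : ∃ D, D = hd1.toFinset := ⟨_, rfl⟩
    rw [Set.ncard_eq_toFinset_card _ hd1, ← hDd] at hd2
    have h1 : ((Fintype.piFinset (fun _ : Fin j => S)).filter
        (fun f => ∏ i, f i = K)).card ≤ D.card ^ j := by
      calc _ ≤ (Fintype.piFinset (fun _ : Fin j => D)).card := by
            refine Finset.card_le_card fun f hf => ?_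
            rw [mem_filter] at hf
            rw [Fintype.mem_piFinset]
            intro i
            rw [hDd, Set.Finite.mem_toFinset]
            show f i ∣ K
            rw [← hf.2]
            exact Finset.dvd_prod_of_mem f (Finset.mem_univ i)
        _ = _ := by
            rw [Fintype.card_piFinset, Finset.prod_const, Finset.card_univ, Fintype.card_fin]
    have h2 : (((Fintype.piFinset (fun _ : Fin j => S)).filter
        (fun f => ∏ i, f i = K)).card : ℝ) ≤ (D.card : ℝ) ^ j := by exact_mod_cast h1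
    refine h2.trans ?_
    have h3 : (D.card : ℝ) ≤ C * y ^ (η / j) := by
      refine hd2.trans ?_
      refine mul_le_mul_of_nonneg_left ?_ hC.le
      calc (nm K) ^ (η / (j : ℝ) ^ 2) ≤ (y ^ j) ^ (η / (j : ℝ) ^ 2) :=
            Real.rpow_le_rpow (nm_nonneg _) hK1 (by positivity)
        _ = y ^ (η / j) := by
            rw [← Real.rpow_natCast y j, ← Real.rpow_mul hy0]
            congr 1
            field_simp
    calc (D.card : ℝ) ^ j ≤ (C * y ^ (η / j)) ^ j :=
          pow_le_pow_left₀ (by positivity) h3 j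
      _ = C ^ j * y ^ η := by
          rw [mul_pow, ← Real.rpow_natCast (y ^ (η / j)) j, ← Real.rpow_mul hy0]
          congr 2
          field_simp
  have hcard : (S.card : ℝ) ^ j = ((Fintype.piFinset (fun _ : Fin j => S)).card : ℝ) := by
    rw [Fintype.card_piFinset, Finset.prod_const, Finset.card_univ, Fintype.card_fin]
    push_cast
    rfl
  rw [hcard, Finset.card_eq_sum_card_fiberwise hmaps]
  push_cast
  calc ∑ K ∈ T, (((Fintype.piFinset (fun _ : Fin j => S)).filter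
        (fun f => ∏ i, f i = K)).card : ℝ) ≤ ∑ _K ∈ T, C ^ j * y ^ η := Finset.sum_le_sum hfib
    _ = T.card * (C ^ j * y ^ η) := by rw [Finset.sum_const, nsmul_eq_mul]
    _ ≤ (C₁ * (1 + y ^ j / nm c) * (nm c / e)) * (C ^ j * y ^ η) :=
        mul_le_mul_of_nonneg_right hTc0 (by positivity)
    _ = _ := by ring

end Pool.Agent.W240.HK
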